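import Mathlib

/-!
# Families of holomorphic maps that are equicontinuous on a Hartogs figure only

For every `n ≥ 1` and `0 < r < 1` we give a family of holomorphic maps from the polydisk
`Δ^{n+1}` to the complex projective plane (a compact Kähler manifold) that is equicontinuous on
the Hartogs figure `H_n^1(r)` but not on `Δ^{n+1}`.  The maps are
`(z, w) ↦ [z₀ - c : w : 1/(k+1)]` with `1 - r < c < 1`.  They have no point of indeterminacy, but
their limit `[z₀ - c : w : 0]` has one at `z₀ = c, w = 0`, outside the Hartogs figure.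
-/

set_option autoImplicit false

open scoped LinearAlgebra.Projectivization InnerProductSpace

namespace Pool.Agent.Results.MP_7ec995_an.IndeterminacyEscapes

/-- The complex projective plane: the set of complex lines of `ℂ³`. -/
abbrev P2 : Type := ℙ ℂ (EuclideanSpace ℂ (Fin 3))

/-- The distance of the Fubini–Study metric (a Kähler metric) of the projective plane: the angle
`arccos (|⟨u, v⟩| / (‖u‖ ‖v‖)) ∈ [0, π/2]` between the lines spanned by `u` and `v`. -/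
noncomputable def fsDist (a b : P2) : ℝ :=
  Real.arccos (‖⟪a.rep, b.rep⟫_ℂ‖ / (‖a.rep‖ * ‖b.rep‖))

/-- The polydisk `Δ^{n+1}` in `ℂ^n × ℂ = ℂ^{n+1}`. -/
def Polydisk (n : ℕ) : Set ((Fin n → ℂ) × ℂ) :=
  {p | (∀ i, ‖p.1 i‖ < 1) ∧ ‖p.2‖ < 1}

/-- The Hartogs figure `H_n^1(r) = (Δ^n(1-r) × Δ) ∪ (Δ^n × {r < |w| < 1})`. -/
def Hartogs (n : ℕ) (r : ℝ) : Set ((Fin n → ℂ) × ℂ) :=
  {p | ((∀ i, ‖p.1 i‖ < 1 - r) ∧ ‖p.2‖ < 1) ∨ ((∀ i, ‖p.1 i‖ < 1) ∧ r < ‖p.2‖ ∧ ‖p.2‖ < 1)}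

/-- The map `f` is holomorphic on the open set `U`: locally on `U` it is `z ↦ [F z]` with `F` a
holomorphic map to `ℂ³` without zeros. -/
def HolomorphicOn {n : ℕ} (f : (Fin n → ℂ) × ℂ → P2) (U : Set ((Fin n → ℂ) × ℂ)) : Prop :=
  ∀ p ∈ U, ∃ V : Set ((Fin n → ℂ) × ℂ), IsOpen V ∧ p ∈ V ∧
    ∃ F : (Fin n → ℂ) × ℂ → EuclideanSpace ℂ (Fin 3), DifferentiableOn ℂ F V ∧
      ∀ z ∈ V, ∃ h : F z ≠ 0, f z = Projectivization.mk ℂ (F z) h

/-- The family `𝓕` is equicontinuous on `U`. -/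
def EquicontinuousFamilyOn {n : ℕ} (𝓕 : Set ((Fin n → ℂ) × ℂ → P2))
    (U : Set ((Fin n → ℂ) × ℂ)) : Prop :=
  ∀ p ∈ U, ∀ ε : ℝ, 0 < ε → ∃ δ : ℝ, 0 < δ ∧
    ∀ f ∈ 𝓕, ∀ z ∈ U, dist z p < δ → fsDist (f z) (f p) < ε

theorem fsDist_mk (u v : EuclideanSpace ℂ (Fin 3)) (hu : u ≠ 0) (hv : v ≠ 0) :
    fsDist (Projectivization.mk ℂ u hu) (Projectivization.mk ℂ v hv) =
      Real.arccos (‖⟪u, v⟫_ℂ‖ / (‖u‖ * ‖v‖)) := by
  obtain ⟨a, ha⟩ := Projectivization.exists_smul_eq_mk_rep ℂ u hu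
  obtain ⟨b, hb⟩ := Projectivization.exists_smul_eq_mk_rep ℂ v hv
  unfold fsDist
  rw [← ha, ← hb]
  have ha0 : ‖(a : ℂ)‖ ≠ 0 := norm_ne_zero_iff.mpr a.ne_zero
  have hb0 : ‖(b : ℂ)‖ ≠ 0 := norm_ne_zero_iff.mpr b.ne_zero
  have hu0 : ‖u‖ ≠ 0 := norm_ne_zero_iff.mpr hu
  have hv0 : ‖v‖ ≠ 0 := norm_ne_zero_iff.mpr hv
  congr 1
  rw [Units.smul_def, Units.smul_def, inner_smul_left, inner_smul_right, norm_smul, norm_smul,
    norm_mul, norm_mul, RCLike.norm_conj]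
  field_simp

/-- the vector `(z₀ - c, w, 1/(k+1))` -/
noncomputable def vec (a b : ℂ) (k : ℕ) : EuclideanSpace ℂ (Fin 3) :=
  !₂[a, b, (1 / ((k : ℂ) + 1))]

theorem vec_ne_zero (a b : ℂ) (k : ℕ) : vec a b k ≠ 0 := by
  intro h
  have h2 := congrArg (fun v : EuclideanSpace ℂ (Fin 3) => v 2) h
  simp [vec] at h2
  exact Nat.cast_add_one_ne_zero k h2

theorem norm_vec_sub (a b a' b' : ℂ) (k : ℕ) :
    ‖vec a b k - vec a' b' k‖ ^ 2 = ‖a - a'‖ ^ 2 + ‖b - b'‖ ^ 2 := by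
  rw [EuclideanSpace.norm_sq_eq]
  simp [vec, Fin.sum_univ_three]

theorem norm_vec (a b : ℂ) (k : ℕ) :
    ‖vec a b k‖ ^ 2 = ‖a‖ ^ 2 + ‖b‖ ^ 2 + (1 / ((k : ℝ) + 1)) ^ 2 := by
  rw [EuclideanSpace.norm_sq_eq]
  simp only [vec, Fin.sum_univ_three]
  have : ‖(1 / ((k : ℂ) + 1))‖ = 1 / ((k : ℝ) + 1) := by
    rw [norm_div, norm_one]
    congr 1
    have : ((k : ℂ) + 1) = (((k : ℝ) + 1 : ℝ) : ℂ) := by push_cast; ring
    rw [this, Complex.norm_real, Real.norm_of_nonneg (by positivity)]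
  simp
  simp at this
  rw [this]

/-- angle estimate -/
theorem arccos_small {η ε : ℝ} (hη : 0 < η) (hε : 0 < ε) :
    ∃ t₀ : ℝ, 0 < t₀ ∧ ∀ u v : EuclideanSpace ℂ (Fin 3), u ≠ 0 → η ≤ ‖v‖ → ‖u - v‖ ≤ t₀ →
      Real.arccos (‖⟪u, v⟫_ℂ‖ / (‖u‖ * ‖v‖)) < ε := by
  have hc : Filter.Tendsto Real.arccos (nhds 1) (nhds 0) := by
    have := Real.continuous_arccos.tendsto (1 : ℝ)
    rwa [Real.arccos_one] at this
  have h1 := (Metric.tendsto_nhds_nhds.mp hc) ε hε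
  obtain ⟨δ, hδ, h1⟩ := h1
  refine ⟨η * δ / 4, by positivity, fun u v hu hv huv => ?_⟩
  set t := ‖u - v‖ with ht
  have ht0 : 0 ≤ t := norm_nonneg _
  have hv0 : 0 < ‖v‖ := lt_of_lt_of_le hη hv
  have hu0 : 0 < ‖u‖ := norm_pos_iff.mpr hu
  have hin : ‖v‖ ^ 2 - t * ‖v‖ ≤ ‖⟪u, v⟫_ℂ‖ := by
    have e1 : ⟪u, v⟫_ℂ = ⟪v, v⟫_ℂ + ⟪u - v, v⟫_ℂ := by
      rw [← inner_add_left]; congr 1; abel
    have e2 : ‖⟪v, v⟫_ℂ‖ = ‖v‖ ^ 2 := by
      rw [inner_self_eq_norm_sq_to_K]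
      simp
    have e3 : ‖⟪u - v, v⟫_ℂ‖ ≤ t * ‖v‖ := norm_inner_le_norm _ _
    have e4 : ‖⟪v, v⟫_ℂ‖ ≤ ‖⟪u, v⟫_ℂ‖ + ‖⟪u - v, v⟫_ℂ‖ := by
      have : ⟪v, v⟫_ℂ = ⟪u, v⟫_ℂ - ⟪u - v, v⟫_ℂ := by rw [e1]; ring
      rw [this]; exact norm_sub_le _ _
    linarith
  have hun : ‖u‖ ≤ ‖v‖ + t := by
    calc ‖u‖ = ‖v + (u - v)‖ := by congr 1; abel
      _ ≤ ‖v‖ + t := norm_add_le _ _
  have hle : ‖⟪u, v⟫_ℂ‖ / (‖u‖ * ‖v‖) ≤ 1 := by
    rw [div_le_one (by positivity)]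
    exact norm_inner_le_norm _ _
  have hge : 1 - δ / 2 ≤ ‖⟪u, v⟫_ℂ‖ / (‖u‖ * ‖v‖) := by
    rw [le_div_iff₀ (by positivity)]
    by_cases hd : δ ≤ 2
    · have h2 : (1 - δ / 2) * (‖u‖ * ‖v‖) ≤ (1 - δ / 2) * ((‖v‖ + t) * ‖v‖) := by
        apply mul_le_mul_of_nonneg_left _ (by linarith)
        exact mul_le_mul_of_nonneg_right hun hv0.le
      have h3 : (1 - δ / 2) * ((‖v‖ + t) * ‖v‖) ≤ ‖v‖ ^ 2 - t * ‖v‖ := by
        have h4 : 2 * t ≤ δ / 2 * ‖v‖ := by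
          have : η * δ / 4 * 2 ≤ δ / 2 * ‖v‖ := by nlinarith
          linarith
        have h5 : (1 - δ / 2) * (‖v‖ + t) ≤ ‖v‖ - t := by nlinarith
        nlinarith
      linarith
    · push Not at hd
      have : (1 - δ / 2) * (‖u‖ * ‖v‖) ≤ 0 :=
        mul_nonpos_of_nonpos_of_nonneg (by linarith) (by positivity)
      exact this.trans (norm_nonneg _)
  have h2 := h1 (x := ‖⟪u, v⟫_ℂ‖ / (‖u‖ * ‖v‖)) (by
    rw [Real.dist_eq, abs_lt]
    constructor <;> linarith)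
  rw [Real.dist_eq, sub_zero] at h2
  exact lt_of_le_of_lt (le_abs_self _) h2

/-- The maps of the example. -/
noncomputable def ex {n : ℕ} (i₀ : Fin n) (c : ℝ) (k : ℕ) (p : (Fin n → ℂ) × ℂ) : P2 :=
  Projectivization.mk ℂ (vec (p.1 i₀ - c) p.2 k) (vec_ne_zero _ _ _)

theorem ex_holo {n : ℕ} (i₀ : Fin n) (c : ℝ) (k : ℕ) :
    HolomorphicOn (ex i₀ c k) (Polydisk n) := by
  intro p _
  refine ⟨Set.univ, isOpen_univ, Set.mem_univ _, fun q => vec (q.1 i₀ - c) q.2 k, ?_, ?_⟩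
  · apply Differentiable.differentiableOn
    rw [differentiable_euclidean]
    intro i
    fin_cases i
    · simp only [vec]
      have : Differentiable ℂ (fun q : (Fin n → ℂ) × ℂ => q.1 i₀ - (c : ℂ)) := by fun_prop
      simpa using this
    · simp only [vec]
      have : Differentiable ℂ (fun q : (Fin n → ℂ) × ℂ => q.2) := by fun_prop
      simp
    · simp only [vec]
      have : Differentiable ℂ (fun _ : (Fin n → ℂ) × ℂ => (1 / ((k : ℂ) + 1))) := by fun_prop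
      simp
  · intro z _
    exact ⟨vec_ne_zero _ _ _, rfl⟩

theorem result (n : ℕ) (hn : 1 ≤ n) (r : ℝ) (hr0 : 0 < r) (hr1 : r < 1) :
    ∃ 𝓕 : Set ((Fin n → ℂ) × ℂ → P2),
      (∀ f ∈ 𝓕, HolomorphicOn f (Polydisk n)) ∧
      EquicontinuousFamilyOn 𝓕 (Hartogs n r) ∧
      ¬ EquicontinuousFamilyOn 𝓕 (Polydisk n) := by
  set i₀ : Fin n := ⟨0, hn⟩
  set c : ℝ := 1 - r / 2 with hc
  have hc0 : 0 < c := by rw [hc]; linarith
  refine ⟨Set.range (ex i₀ c), ?_, ?_, ?_⟩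
  · rintro f ⟨k, rfl⟩
    exact ex_holo i₀ c k
  · intro p hp ε hε
    obtain ⟨t₀, ht₀, H⟩ := arccos_small (η := r / 2) (ε := ε) (by linarith) hε
    refine ⟨t₀ / 2, by linarith, ?_⟩
    rintro f ⟨k, rfl⟩ z hz hzp
    unfold ex
    rw [fsDist_mk]
    apply H _ _ (vec_ne_zero _ _ _)
    · -- lower bound of the norm at `p`
      have hsq : (r / 2) ^ 2 ≤ ‖vec (p.1 i₀ - c) p.2 k‖ ^ 2 := by
        rw [norm_vec]
        rcases hp with ⟨h1, _⟩ | ⟨_, h2, _⟩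
        · have h3 : r / 2 ≤ ‖p.1 i₀ - (c : ℂ)‖ := by
            have h4 := norm_sub_norm_le (c : ℂ) (p.1 i₀)
            rw [Complex.norm_real, Real.norm_of_nonneg hc0.le, norm_sub_rev] at h4
            have h5 := h1 i₀
            rw [hc] at h4 ⊢
            linarith
          have h6 : (r / 2) ^ 2 ≤ ‖p.1 i₀ - (c : ℂ)‖ ^ 2 := by
            apply pow_le_pow_left₀ (by linarith) h3
          nlinarith [sq_nonneg ‖p.2‖, sq_nonneg (1 / ((k : ℝ) + 1))]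
        · have h6 : (r / 2) ^ 2 ≤ ‖p.2‖ ^ 2 := by
            apply pow_le_pow_left₀ (by linarith)
            linarith
          nlinarith [sq_nonneg ‖p.1 i₀ - (c : ℂ)‖, sq_nonneg (1 / ((k : ℝ) + 1))]
      exact le_of_sq_le_sq hsq (norm_nonneg _)
    · have hsq : ‖vec (z.1 i₀ - c) z.2 k - vec (p.1 i₀ - c) p.2 k‖ ^ 2 ≤ t₀ ^ 2 := by
        rw [norm_vec_sub]
        have h1 : ‖z.1 i₀ - p.1 i₀‖ ≤ t₀ / 2 := by
          have := dist_le_pi_dist z.1 p.1 i₀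
          rw [dist_eq_norm] at this
          have h2 : dist z.1 p.1 ≤ dist z p := by
            rw [Prod.dist_eq]; exact le_max_left _ _
          linarith
        have h2 : ‖z.2 - p.2‖ ≤ t₀ / 2 := by
          have h2 : dist z.2 p.2 ≤ dist z p := by
            rw [Prod.dist_eq]; exact le_max_right _ _
          rw [dist_eq_norm] at h2
          linarith
        have e : (z.1 i₀ - (c : ℂ)) - (p.1 i₀ - c) = z.1 i₀ - p.1 i₀ := by ring
        rw [e]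
        have h3 := pow_le_pow_left₀ (norm_nonneg _) h1 2
        have h4 := pow_le_pow_left₀ (norm_nonneg _) h2 2
        nlinarith
      exact le_of_sq_le_sq hsq ht₀.le
  · intro h
    set p : (Fin n → ℂ) × ℂ := (fun _ => (c : ℂ), 0) with hp
    have hpm : p ∈ Polydisk n := by
      refine ⟨fun i => ?_, by simp [hp]⟩
      simp only [hp, Complex.norm_real]
      rw [Real.norm_of_nonneg hc0.le, hc]
      linarith
    obtain ⟨δ, hδ, H⟩ := h p hpm (Real.arccos (1 / 2)) (by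
      rw [Real.arccos_pos]; norm_num)
    set w : ℝ := min (δ / 2) (1 / 2) with hw
    have hw0 : 0 < w := by rw [hw]; positivity
    have hw1 : w ≤ 1 / 2 := min_le_right _ _
    have hwδ : w ≤ δ / 2 := min_le_left _ _
    obtain ⟨k, hk⟩ := exists_nat_gt (2 / w)
    set z : (Fin n → ℂ) × ℂ := (fun _ => (c : ℂ), (w : ℂ)) with hz
    have hzm : z ∈ Polydisk n := by
      refine ⟨fun i => ?_, ?_⟩
      · simp only [hz, Complex.norm_real]
        rw [Real.norm_of_nonneg hc0.le, hc]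
        linarith
      · simp only [hz, Complex.norm_real]
        rw [Real.norm_of_nonneg hw0.le]
        linarith
    have hd : dist z p < δ := by
      rw [Prod.dist_eq]
      simp only [hz, hp, dist_self, dist_zero_right, Complex.norm_real,
        Real.norm_of_nonneg hw0.le]
      rw [max_eq_right hw0.le]
      linarith
    have H1 := H _ ⟨k, rfl⟩ z hzm hd
    unfold ex at H1
    rw [fsDist_mk] at H1
    have H2 : Real.arccos (1 / 2) ≤ Real.arccos (‖⟪vec (z.1 i₀ - c) z.2 k,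
        vec (p.1 i₀ - c) p.2 k⟫_ℂ‖ / (‖vec (z.1 i₀ - c) z.2 k‖ * ‖vec (p.1 i₀ - c) p.2 k‖)) := by
      apply Real.arccos_le_arccos
      have e0 : z.1 i₀ - (c : ℂ) = 0 := by simp [hz]
      have e1 : p.1 i₀ - (c : ℂ) = 0 := by simp [hp]
      have e2 : z.2 = (w : ℂ) := rfl
      have e3 : p.2 = 0 := rfl
      simp only [e0, e1, e2, e3]
      set s : ℝ := 1 / ((k : ℝ) + 1) with hs
      have hs0 : 0 < s := by rw [hs]; positivity
      have hsw : 2 * s ≤ w := by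
        have h1 : 2 < w * ((k : ℝ) + 1) := by
          rw [div_lt_iff₀ hw0] at hk
          nlinarith
        rw [hs]
        rw [mul_one_div, div_le_iff₀ (by positivity)]
        linarith
      have hcs : (1 / ((k : ℂ) + 1)) = (s : ℂ) := by rw [hs]; push_cast; ring
      have hin : ‖⟪vec 0 (w : ℂ) k, vec 0 0 k⟫_ℂ‖ = s ^ 2 := by
        have : ⟪vec 0 (w : ℂ) k, vec 0 0 k⟫_ℂ = ((s ^ 2 : ℝ) : ℂ) := by
          simp only [vec, hcs]
          rw [PiLp.inner_apply]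
          simp [Fin.sum_univ_three, sq]
        rw [this, Complex.norm_real, Real.norm_of_nonneg (by positivity)]
      have hnv : ‖vec 0 0 k‖ = s := by
        have h1 := norm_vec 0 0 k
        rw [← hs] at h1
        have h2 : ‖vec 0 0 k‖ ^ 2 = s ^ 2 := by rw [h1]; simp
        exact (pow_left_inj₀ (norm_nonneg _) hs0.le two_ne_zero).mp h2
      have hnu : 2 * s ≤ ‖vec 0 (w : ℂ) k‖ := by
        have h1 := norm_vec 0 (w : ℂ) k
        rw [← hs, Complex.norm_real, Real.norm_of_nonneg hw0.le] at h1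
        have h2 : (2 * s) ^ 2 ≤ ‖vec 0 (w : ℂ) k‖ ^ 2 := by
          rw [h1]
          have := pow_le_pow_left₀ (by positivity) hsw 2
          simp only [norm_zero]
          nlinarith [sq_nonneg s]
        exact le_of_sq_le_sq h2 (norm_nonneg _)
      have hu0 : 0 < ‖vec 0 (w : ℂ) k‖ := lt_of_lt_of_le (by linarith) hnu
      rw [hin, hnv, div_le_iff₀ (mul_pos hu0 hs0)]
      nlinarith
    linarith

end Pool.Agent.Results.MP_7ec995_an.IndeterminacyEscapes
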